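import Pool.Agent.Helper49.LPP.DisjointSup

/-! LPP-10: joint exponential moments of two passage times (MP_6c0a5d_pr). -/

open MeasureTheory ProbabilityTheory Filter Topology
open scoped ENNReal

namespace Helper97.LPP

variable {Ω : Type*} [MeasurableSpace Ω] {P : Measure Ω} [IsProbabilityMeasure P]
  {X : ℕ × ℕ → Ω → ℝ}

/-- pairs of paths `q → p₁`, `q → p₂` that meet only in `q` -/
noncomputable def h41pairs (q p₁ p₂ : ℕ × ℕ) : Finset (Finset (ℕ × ℕ) × Finset (ℕ × ℕ)) :=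
  (paths q p₁ ×ˢ paths q p₂).filter fun j => j.1 ∩ j.2 = {q}

/-- two paths from the origin split at their last common site -/
theorem h41split {p₁ p₂ : ℕ × ℕ} {π₁ π₂ : Finset (ℕ × ℕ)} (h₁ : IsPath (0, 0) p₁ π₁)
    (h₂ : IsPath (0, 0) p₂ π₂) :
    ∃ q α₁ β₁ α₂ β₂, IsPath (0, 0) q α₁ ∧ IsPath q p₁ β₁ ∧ IsPath (0, 0) q α₂ ∧
      IsPath q p₂ β₂ ∧ π₁ = α₁ ∪ β₁ ∧ π₂ = α₂ ∪ β₂ ∧ β₁ ∩ β₂ = {q} := by
  have hne : (π₁ ∩ π₂).Nonempty := ⟨(0, 0), Finset.mem_inter.2 ⟨h₁.left_mem, h₂.left_mem⟩⟩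
  obtain ⟨q, hq, hmax⟩ := Finset.exists_max_image (π₁ ∩ π₂) (fun w => w.1 + w.2) hne
  obtain ⟨hq1, hq2⟩ := Finset.mem_inter.1 hq
  obtain ⟨α₁, β₁, a1, b1, e1⟩ := h₁.split hq1
  obtain ⟨α₂, β₂, a2, b2, e2⟩ := h₂.split hq2
  refine ⟨q, α₁, β₁, α₂, β₂, a1, b1, a2, b2, e1, e2, ?_⟩
  ext v
  simp only [Finset.mem_inter, Finset.mem_singleton]
  constructor
  · rintro ⟨hv1, hv2⟩
    have h3 := (b1.mem_le hv1).1
    have h4 := hmax v (Finset.mem_inter.2 ⟨by rw [e1]; exact Finset.mem_union_right _ hv1,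
      by rw [e2]; exact Finset.mem_union_right _ hv2⟩)
    have h5 := h3.1
    have h6 := h3.2
    ext <;> omega
  · rintro rfl
    exact ⟨b1.left_mem, b2.left_mem⟩

/-- the supremum over pairs of paths meeting only in `q` -/
noncomputable def h41g (θ₁ θ₂ : ℝ) (q p₁ p₂ : ℕ × ℕ) (x : ℕ × ℕ → ℝ) : ℝ≥0∞ :=
  (h41pairs q p₁ p₂).sup fun j => ENNReal.ofReal
    (Real.exp (θ₁ * ∑ i ∈ j.1.erase q, x i + θ₂ * ∑ i ∈ j.2.erase q, x i))

theorem h41g_measurable (θ₁ θ₂ : ℝ) (q p₁ p₂ : ℕ × ℕ) : Measurable (h41g θ₁ θ₂ q p₁ p₂) := by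
  unfold h41g
  have : (fun x : ℕ × ℕ → ℝ => (h41pairs q p₁ p₂).sup fun j => ENNReal.ofReal
      (Real.exp (θ₁ * ∑ i ∈ j.1.erase q, x i + θ₂ * ∑ i ∈ j.2.erase q, x i))) =
      (h41pairs q p₁ p₂).sup fun j => fun x : ℕ × ℕ → ℝ => ENNReal.ofReal
      (Real.exp (θ₁ * ∑ i ∈ j.1.erase q, x i + θ₂ * ∑ i ∈ j.2.erase q, x i)) := by
    funext x
    rw [Finset.sup_apply]
  rw [this]
  refine Finset.sup_induction measurable_const (fun _ ha _ hb => ha.sup hb) ?_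
  intro j _
  fun_prop

theorem h41g_local (θ₁ θ₂ : ℝ) (q p₁ p₂ : ℕ × ℕ) :
    Local ((Finset.Icc q (p₁ ⊔ p₂)).erase q) (h41g θ₁ θ₂ q p₁ p₂) := by
  intro x y hxy
  unfold h41g
  refine Finset.sup_congr rfl ?_
  intro j hj
  rw [h41pairs, Finset.mem_filter, Finset.mem_product] at hj
  obtain ⟨⟨hj1, hj2⟩, _⟩ := hj
  rw [mem_paths] at hj1 hj2
  have e1 : ∑ i ∈ j.1.erase q, x i = ∑ i ∈ j.1.erase q, y i := by
    refine Finset.sum_congr rfl fun w hw => hxy w ?_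
    rw [Finset.mem_erase] at hw ⊢
    exact ⟨hw.1, Finset.mem_Icc.2 ⟨(hj1.mem_le hw.2).1, (hj1.mem_le hw.2).2.trans le_sup_left⟩⟩
  have e2 : ∑ i ∈ j.2.erase q, x i = ∑ i ∈ j.2.erase q, y i := by
    refine Finset.sum_congr rfl fun w hw => hxy w ?_
    rw [Finset.mem_erase] at hw ⊢
    exact ⟨hw.1, Finset.mem_Icc.2 ⟨(hj2.mem_le hw.2).1, (hj2.mem_le hw.2).2.trans le_sup_right⟩⟩
  rw [e1, e2]

/-- pointwise bound -/
theorem h41pointwise {θ₁ θ₂ : ℝ} (h1 : 0 ≤ θ₁) (h2 : 0 ≤ θ₂) (p₁ p₂ : ℕ × ℕ)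
    (x : ℕ × ℕ → ℝ) :
    ENNReal.ofReal (Real.exp (θ₁ * lp x (0, 0) p₁ + θ₂ * lp x (0, 0) p₂)) ≤
      ∑ q ∈ Finset.Icc (0, 0) (p₁ ⊓ p₂),
        ENNReal.ofReal (Real.exp ((θ₁ + θ₂) * lp x (0, 0) q)) * h41g θ₁ θ₂ q p₁ p₂ x := by
  have z1 : ((0, 0) : ℕ × ℕ) ≤ p₁ := ⟨Nat.zero_le _, Nat.zero_le _⟩
  have z2 : ((0, 0) : ℕ × ℕ) ≤ p₂ := ⟨Nat.zero_le _, Nat.zero_le _⟩
  obtain ⟨π₁, hπ₁, e1⟩ := exists_lp x z1
  obtain ⟨π₂, hπ₂, e2⟩ := exists_lp x z2
  obtain ⟨q, α₁, β₁, α₂, β₂, a1, b1, a2, b2, f1, f2, hint⟩ := h41split hπ₁ hπ₂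
  have hq : q ∈ Finset.Icc (0, 0) (p₁ ⊓ p₂) :=
    Finset.mem_Icc.2 ⟨a1.le, le_inf b1.le b2.le⟩
  refine le_trans ?_ (Finset.single_le_sum (f := fun q =>
    ENNReal.ofReal (Real.exp ((θ₁ + θ₂) * lp x (0, 0) q)) * h41g θ₁ θ₂ q p₁ p₂ x)
    (fun _ _ => zero_le) hq)
  have hj : (β₁, β₂) ∈ h41pairs q p₁ p₂ := by
    rw [h41pairs, Finset.mem_filter, Finset.mem_product]
    exact ⟨⟨mem_paths.2 b1, mem_paths.2 b2⟩, hint⟩
  have hle : ENNReal.ofReal
      (Real.exp (θ₁ * ∑ i ∈ β₁.erase q, x i + θ₂ * ∑ i ∈ β₂.erase q, x i)) ≤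
      h41g θ₁ θ₂ q p₁ p₂ x :=
    Finset.le_sup (f := fun j : Finset (ℕ × ℕ) × Finset (ℕ × ℕ) => ENNReal.ofReal
      (Real.exp (θ₁ * ∑ i ∈ j.1.erase q, x i + θ₂ * ∑ i ∈ j.2.erase q, x i))) hj
  refine le_trans ?_ (mul_le_mul_right hle _)
  rw [← ENNReal.ofReal_mul (Real.exp_pos _).le, ← Real.exp_add]
  refine ENNReal.ofReal_le_ofReal (Real.exp_le_exp.2 ?_)
  have g1 : lp x (0, 0) p₁ ≤ lp x (0, 0) q + ∑ i ∈ β₁.erase q, x i := by
    rw [e1, f1, sum_union x a1 b1, ← Finset.add_sum_erase β₁ x b1.left_mem]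
    have := le_lp x a1
    linarith
  have g2 : lp x (0, 0) p₂ ≤ lp x (0, 0) q + ∑ i ∈ β₂.erase q, x i := by
    rw [e2, f2, sum_union x a2 b2, ← Finset.add_sum_erase β₂ x b2.left_mem]
    have := le_lp x a2
    linarith
  have k1 := mul_le_mul_of_nonneg_left g1 h1
  have k2 := mul_le_mul_of_nonneg_left g2 h2
  linarith

/-- the restriction of an exponential field to a finite set has the product law -/
theorem h41map (h : IsExpField P X) (T : Finset (ℕ × ℕ)) :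
    P.map (fun ω (i : T) => X i ω) = Measure.pi (fun _ : T => expMeasure 1) := by
  have h1 : iIndepFun (fun w : T => X w) P := h.indep.precomp Subtype.val_injective
  rw [(iIndepFun_iff_map_fun_eq_pi_map (fun w : T => (h.meas w).aemeasurable)).1 h1]
  congr 1
  funext w
  exact h.law w

theorem h41lintegral (h : IsExpField P X) (T : Finset (ℕ × ℕ)) {f : (ℕ × ℕ → ℝ) → ℝ≥0∞}
    (hf : Measurable f) (hT : Local T f) :
    ∫⁻ ω, f (fun w => X w ω) ∂P =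
      ∫⁻ x, f (ext0 T x) ∂(Measure.pi (fun _ : T => expMeasure 1)) := by
  have hX : Measurable (fun ω (i : T) => X i ω) := measurable_pi_iff.2 fun w => h.meas w
  have h2 : Measurable (fun x => f (ext0 T x)) := hf.comp (ext0_measurable T)
  rw [← h41map h T, lintegral_map h2 hX]
  refine lintegral_congr fun ω => ?_
  exact (local_ext0 hT (fun w => X w ω)).symm

/-- sums over subsets of `T` of the extended configuration -/
theorem h41sum (T β : Finset (ℕ × ℕ)) (hβ : β ⊆ T) (x : T → ℝ) :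
    ∑ i ∈ β, ext0 T x i = ∑ i ∈ (Finset.univ : Finset T).filter (fun i => i.1 ∈ β), x i := by
  symm
  refine Finset.sum_bij (fun i _ => i.1) ?_ ?_ ?_ ?_
  · intro i hi
    exact (Finset.mem_filter.1 hi).2
  · intro i _ j _ hij
    exact Subtype.ext hij
  · intro b hb
    exact ⟨⟨b, hβ hb⟩, Finset.mem_filter.2 ⟨Finset.mem_univ _, hb⟩, rfl⟩
  · intro i _
    simp [ext0]

/-- the expectation of the supremum over pairs of paths that meet only in `q` -/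
theorem h41expect (h : IsExpField P X) {θ₁ θ₂ : ℝ} (h1 : 0 ≤ θ₁) (h2 : 0 ≤ θ₂)
    (q p₁ p₂ : ℕ × ℕ) :
    ∫⁻ ω, h41g θ₁ θ₂ q p₁ p₂ (fun w => X w ω) ∂P ≤ emom P X θ₁ q p₁ * emom P X θ₂ q p₂ := by
  haveI hprob : IsProbabilityMeasure (expMeasure 1) := isProbabilityMeasure_expMeasure one_pos
  set T : Finset (ℕ × ℕ) := Finset.Icc q (p₁ ⊔ p₂) with hT
  have hloc : Local T (h41g θ₁ θ₂ q p₁ p₂) :=
    (h41g_local θ₁ θ₂ q p₁ p₂).mono (Finset.erase_subset _ _)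
  rw [h41lintegral h T (h41g_measurable θ₁ θ₂ q p₁ p₂) hloc]
  set A : Finset (ℕ × ℕ) × Finset (ℕ × ℕ) → Finset T := fun j =>
    (Finset.univ : Finset T).filter (fun i => i.1 ∈ j.1.erase q) with hA
  set B : Finset (ℕ × ℕ) × Finset (ℕ × ℕ) → Finset T := fun j =>
    (Finset.univ : Finset T).filter (fun i => i.1 ∈ j.2.erase q) with hB
  have hp : ∀ j ∈ h41pairs q p₁ p₂, IsPath q p₁ j.1 ∧ IsPath q p₂ j.2 ∧ j.1 ∩ j.2 = {q} := by
    intro j hj
    rw [h41pairs, Finset.mem_filter, Finset.mem_product] at hj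
    exact ⟨mem_paths.1 hj.1.1, mem_paths.1 hj.1.2, hj.2⟩
  have hT1 : ∀ j ∈ h41pairs q p₁ p₂, j.1 ⊆ T := by
    intro j hj w hw
    have := (hp j hj).1.mem_le hw
    exact Finset.mem_Icc.2 ⟨this.1, this.2.trans le_sup_left⟩
  have hT2 : ∀ j ∈ h41pairs q p₁ p₂, j.2 ⊆ T := by
    intro j hj w hw
    have := (hp j hj).2.1.mem_le hw
    exact Finset.mem_Icc.2 ⟨this.1, this.2.trans le_sup_right⟩
  have hd : ∀ j ∈ h41pairs q p₁ p₂, Disjoint (A j) (B j) := by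
    intro j hj
    rw [Finset.disjoint_left]
    intro i hi1 hi2
    have k1 := Finset.mem_erase.1 (Finset.mem_filter.1 hi1).2
    have k2 := Finset.mem_erase.1 (Finset.mem_filter.1 hi2).2
    have k3 : i.1 ∈ j.1 ∩ j.2 := Finset.mem_inter.2 ⟨k1.2, k2.2⟩
    rw [(hp j hj).2.2, Finset.mem_singleton] at k3
    exact k1.1 k3
  have hg : ∀ x : T → ℝ, h41g θ₁ θ₂ q p₁ p₂ (ext0 T x) =
      (h41pairs q p₁ p₂).sup fun j => ENNReal.ofReal
        (Real.exp (θ₁ * ∑ i ∈ A j, x i + θ₂ * ∑ i ∈ B j, x i)) := by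
    intro x
    unfold h41g
    refine Finset.sup_congr rfl ?_
    intro j hj
    rw [h41sum T (j.1.erase q) ((Finset.erase_subset _ _).trans (hT1 j hj)),
      h41sum T (j.2.erase q) ((Finset.erase_subset _ _).trans (hT2 j hj))]
  simp_rw [hg]
  refine (disjoint_sup (fun _ : T => expMeasure 1) (h41pairs q p₁ p₂) A B hd h1 h2).trans ?_
  -- almost surely the weights are nonnegative
  have hpos : ∀ᵐ x ∂(Measure.pi (fun _ : T => expMeasure 1)), ∀ i, 0 < x i := by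
    rw [ae_all_iff]
    intro i
    exact (Measure.tendsto_eval_ae_ae (μ := fun _ : T => expMeasure 1) (i := i)).eventually
      (expMeasure_ae_pos 1)
  have hb : ∀ (β : Finset (ℕ × ℕ)) (p : ℕ × ℕ) (x : T → ℝ), (∀ i, 0 < x i) → IsPath q p β →
      β ⊆ T → ∑ i ∈ (Finset.univ : Finset T).filter (fun i => i.1 ∈ β.erase q), x i ≤
        lp (ext0 T x) q p := by
    intro β p x hx hβ hβT
    rw [← h41sum T (β.erase q) ((Finset.erase_subset _ _).trans hβT)]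
    refine le_trans ?_ (le_lp _ hβ)
    refine Finset.sum_le_sum_of_subset_of_nonneg (Finset.erase_subset _ _) ?_
    intro i _ _
    unfold ext0
    split_ifs with hi
    · exact (hx _).le
    · exact le_rfl
  have hmeas : ∀ (θ : ℝ) (p : ℕ × ℕ), Measurable
      (fun x : ℕ × ℕ → ℝ => ENNReal.ofReal (Real.exp (θ * lp x q p))) := by
    intro θ p
    exact (((lp_measurable q p).const_mul θ).exp).ennreal_ofReal
  have hmeas' : ∀ (θ : ℝ) (p : ℕ × ℕ), Measurable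
      (fun x : T → ℝ => ENNReal.ofReal (Real.exp (θ * lp (ext0 T x) q p))) := by
    intro θ p
    exact (hmeas θ p).comp (ext0_measurable T)
  calc ∫⁻ x, ∫⁻ y, ((h41pairs q p₁ p₂).sup fun j => ENNReal.ofReal
        (Real.exp (θ₁ * ∑ i ∈ A j, x i + θ₂ * ∑ i ∈ B j, y i)))
          ∂(Measure.pi (fun _ : T => expMeasure 1)) ∂(Measure.pi (fun _ : T => expMeasure 1))
      ≤ ∫⁻ x, ∫⁻ y, ENNReal.ofReal (Real.exp (θ₁ * lp (ext0 T x) q p₁)) *
          ENNReal.ofReal (Real.exp (θ₂ * lp (ext0 T y) q p₂))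
          ∂(Measure.pi (fun _ : T => expMeasure 1)) ∂(Measure.pi (fun _ : T => expMeasure 1)) := by
        refine lintegral_mono_ae ?_
        filter_upwards [hpos] with x hx
        refine lintegral_mono_ae ?_
        filter_upwards [hpos] with y hy
        refine Finset.sup_le ?_
        intro j hj
        rw [← ENNReal.ofReal_mul (Real.exp_pos _).le, ← Real.exp_add]
        refine ENNReal.ofReal_le_ofReal (Real.exp_le_exp.2 ?_)
        have k1 := hb j.1 p₁ x hx (hp j hj).1 (hT1 j hj)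
        have k2 := hb j.2 p₂ y hy (hp j hj).2.1 (hT2 j hj)
        exact add_le_add (mul_le_mul_of_nonneg_left k1 h1) (mul_le_mul_of_nonneg_left k2 h2)
    _ = (∫⁻ x, ENNReal.ofReal (Real.exp (θ₁ * lp (ext0 T x) q p₁))
          ∂(Measure.pi (fun _ : T => expMeasure 1))) *
        (∫⁻ y, ENNReal.ofReal (Real.exp (θ₂ * lp (ext0 T y) q p₂))
          ∂(Measure.pi (fun _ : T => expMeasure 1))) := by
        simp_rw [lintegral_const_mul _ (hmeas' θ₂ p₂)]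
        rw [lintegral_mul_const _ (hmeas' θ₁ p₁)]
    _ = emom P X θ₁ q p₁ * emom P X θ₂ q p₂ := by
        unfold emom
        rw [h41lintegral h T (hmeas θ₁ p₁), h41lintegral h T (hmeas θ₂ p₂)]
        · intro x y hxy
          have : lp x q p₂ = lp y q p₂ := lp_congr fun w hw1 hw2 =>
            hxy w (Finset.mem_Icc.2 ⟨hw1, hw2.trans le_sup_right⟩)
          simp only [this]
        · intro x y hxy
          have : lp x q p₁ = lp y q p₁ := lp_congr fun w hw1 hw2 =>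
            hxy w (Finset.mem_Icc.2 ⟨hw1, hw2.trans le_sup_left⟩)
          simp only [this]

theorem two_path (h : IsExpField P X) {θ₁ θ₂ : ℝ} (h1 : 0 ≤ θ₁) (h2 : 0 ≤ θ₂)
    (p₁ p₂ : ℕ × ℕ) :
    ∫⁻ ω, ENNReal.ofReal (Real.exp (θ₁ * lp (fun w => X w ω) (0, 0) p₁ +
        θ₂ * lp (fun w => X w ω) (0, 0) p₂)) ∂P ≤
      ∑ q ∈ Finset.Icc (0, 0) (p₁ ⊓ p₂),
        emom P X (θ₁ + θ₂) (0, 0) q * emom P X θ₁ q p₁ * emom P X θ₂ q p₂ := by
  have hmX : Measurable (fun ω => fun w => X w ω) := measurable_pi_iff.2 h.meas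
  have hm1 : ∀ q, Measurable (fun x : ℕ × ℕ → ℝ =>
      ENNReal.ofReal (Real.exp ((θ₁ + θ₂) * lp x (0, 0) q))) := fun q =>
    (((lp_measurable (0, 0) q).const_mul (θ₁ + θ₂)).exp).ennreal_ofReal
  refine (lintegral_mono fun ω => h41pointwise h1 h2 p₁ p₂ (fun w => X w ω)).trans ?_
  rw [lintegral_finsetSum]
  · refine Finset.sum_le_sum ?_
    intro q _
    have hind : IndepFun
        (fun ω => ENNReal.ofReal (Real.exp ((θ₁ + θ₂) * lp (fun w => X w ω) (0, 0) q)))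
        (fun ω => h41g θ₁ θ₂ q p₁ p₂ (fun w => X w ω)) P := by
      refine indep_local h.meas h.indep (S := Finset.Icc (0, 0) q)
        (T := (Finset.Icc q (p₁ ⊔ p₂)).erase q)
        (f := fun x => ENNReal.ofReal (Real.exp ((θ₁ + θ₂) * lp x (0, 0) q)))
        (g := h41g θ₁ θ₂ q p₁ p₂) ?_ (hm1 q) (h41g_measurable θ₁ θ₂ q p₁ p₂) ?_
        (h41g_local θ₁ θ₂ q p₁ p₂)
      · rw [Finset.disjoint_left]
        intro v hv1 hv2
        have k1 := (Finset.mem_Icc.1 hv1).2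
        have k2 := Finset.mem_erase.1 hv2
        exact k2.1 (le_antisymm k1 (Finset.mem_Icc.1 k2.2).1)
      · intro x y hxy
        have : lp x (0, 0) q = lp y (0, 0) q := local_lp (0, 0) q x y hxy
        simp only [this]
    have hprod := lintegral_mul_eq_lintegral_mul_lintegral_of_indepFun
      ((hm1 q).comp hmX) ((h41g_measurable θ₁ θ₂ q p₁ p₂).comp hmX) hind
    have e : ∫⁻ ω, ENNReal.ofReal (Real.exp ((θ₁ + θ₂) * lp (fun w => X w ω) (0, 0) q)) *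
        h41g θ₁ θ₂ q p₁ p₂ (fun w => X w ω) ∂P =
        emom P X (θ₁ + θ₂) (0, 0) q * ∫⁻ ω, h41g θ₁ θ₂ q p₁ p₂ (fun w => X w ω) ∂P := hprod
    rw [e, mul_assoc]
    exact mul_le_mul_right (h41expect h h1 h2 q p₁ p₂) _
  · intro q _
    exact ((hm1 q).comp hmX).mul ((h41g_measurable θ₁ θ₂ q p₁ p₂).comp hmX)

end Helper97.LPP
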